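import Pool.Agent.W601.SQ.Stm

/-!
# Project SQ, subtask IDX: levels and codes
-/

namespace Pool.Agent.W107.SQ.IDX

open Set Cardinal Pool.Agent.W601.SQ

theorem bounded (S : Set (Cardinal.aleph 1 : Cardinal.{0}).ord.ToType) (hS : S.Countable) :
    ∃ b, ∀ x ∈ S, x < b := by
  by_contra hcon
  push Not at hcon
  have hcount : ∀ x : (Cardinal.aleph 1 : Cardinal.{0}).ord.ToType, (Set.Iic x).Countable := by
    intro x
    have h1 : (Set.Iio x).Countable := by
      rw [← Cardinal.le_aleph0_iff_set_countable]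
      have h : #(Set.Iio x) < Cardinal.aleph 1 := Cardinal.mk_Iio_toType_ord_lt x
      have h2 : (Cardinal.aleph 1 : Cardinal.{0}) = Order.succ ℵ₀ := by
        rw [← Cardinal.aleph_zero, Cardinal.succ_aleph]
        simp
      exact Order.lt_succ_iff.mp (lt_of_lt_of_eq h h2)
    have h2 : Set.Iic x = insert x (Set.Iio x) := by
      ext z; simp [le_iff_lt_or_eq, or_comm]
    rw [h2]
    exact h1.insert x
  have hall : (Set.univ : Set (Cardinal.aleph 1 : Cardinal.{0}).ord.ToType).Countable := by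
    have h3 : (Set.univ : Set (Cardinal.aleph 1 : Cardinal.{0}).ord.ToType) ⊆ ⋃ x ∈ S, Set.Iic x := by
      intro b _
      obtain ⟨x, hx, hb⟩ := hcon b
      simp only [Set.mem_iUnion]
      exact ⟨x, hx, hb⟩
    exact (hS.biUnion fun x _ => hcount x).mono h3
  have h4 : #((Cardinal.aleph 1 : Cardinal.{0}).ord.ToType) ≤ ℵ₀ := by
    rw [← Cardinal.mk_univ]
    exact Cardinal.le_aleph0_iff_set_countable.mpr hall
  rw [Cardinal.mk_ord_toType] at h4
  exact absurd h4 (not_le.mpr Cardinal.aleph0_lt_aleph_one)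

theorem idx : S_IDX := by
  intro C hC hne
  have hcard : #((Cardinal.aleph 1 : Cardinal.{0}).ord.ToType × C) ≤ #ℝ := by
    rw [Cardinal.mk_prod, Cardinal.lift_id, Cardinal.lift_id, Cardinal.mk_ord_toType, Cardinal.mk_real]
    calc (Cardinal.aleph 1 : Cardinal.{0}) * #C ≤ Cardinal.continuum * Cardinal.continuum :=
          mul_le_mul' Cardinal.aleph_one_le_continuum hC
      _ = Cardinal.continuum := Cardinal.continuum_mul_self
  obtain ⟨e⟩ := Cardinal.le_def _ _ |>.mp hcard
  have hΩ : Nonempty ((Cardinal.aleph 1 : Cardinal.{0}).ord.ToType) := by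
    rw [← Cardinal.mk_ne_zero_iff, Cardinal.mk_ord_toType]
    exact (Cardinal.aleph_pos 1).ne'
  have : Nonempty ((Cardinal.aleph 1 : Cardinal.{0}).ord.ToType × C) := inferInstance
  have hinv : ∀ p, Function.invFun e (e p) = p := Function.leftInverse_invFun e.injective
  refine ⟨(Cardinal.aleph 1 : Cardinal.{0}).ord.ToType, inferInstance,
    fun a => (Function.invFun e a).1, fun a => (Function.invFun e a).2, bounded, ?_⟩
  intro b c
  refine ⟨e (b, c), ?_, ?_⟩
  · show (Function.invFun e (e (b, c))).1 = b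
    rw [hinv]
  · show (Function.invFun e (e (b, c))).2 = c
    rw [hinv]

end Pool.Agent.W107.SQ.IDX
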